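import Mathlib
import Pool.Agent.Helper13.A5.Core

set_option autoImplicit false

namespace Pool.Agent.Results.MP_a5fa9a_al.LocalRules

/-- `g : ℝ → ℝ` follows a local rule along the labelled line `ω : ℤ → A`: for some radius `r`,
what `g` does on the tile `[m, m + 1)`, read relative to `m`, depends only on the labels
`ω (m - r), …, ω (m + r)`. -/
def FollowsLocalRule {A : Type} (ω : ℤ → A) (g : ℝ → ℝ) : Prop :=
  ∃ r : ℤ, ∀ m n : ℤ, (∀ i : ℤ, |i| ≤ r → ω (m + i) = ω (n + i)) →
    ∀ t : ℝ, 0 ≤ t → t < 1 → g (t + m) - m = g (t + n) - n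

/-- `G` has a finite presentation (the form used in the frozen statement). -/
def FinPres (G : Type) [Group G] : Prop :=
  ∃ (m : ℕ) (rels : Finset (FreeGroup (Fin m))),
    Nonempty (G ≃* PresentedGroup (rels : Set (FreeGroup (Fin m))))

/-- Vanishing of the bounded cohomology of `G` with trivial real coefficients in degree `n + 1`
(the form used in the frozen statement): every bounded invariant homogeneous cocycle is the
coboundary of a bounded invariant cochain. -/
def BddVanish (G : Type) [Group G] (n : ℕ) : Prop :=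
  ∀ f : (Fin (n + 2) → G) → ℝ,
    (∃ C : ℝ, ∀ x, |f x| ≤ C) →
    (∀ (g : G) (x : Fin (n + 2) → G), f (fun j => g * x j) = f x) →
    (∀ x : Fin (n + 3) → G,
      ∑ i : Fin (n + 3), (-1 : ℝ) ^ (i : ℕ) * f (x ∘ Fin.succAbove i) = 0) →
    ∃ h : (Fin (n + 1) → G) → ℝ,
      (∃ C : ℝ, ∀ x, |h x| ≤ C) ∧
      (∀ (g : G) (x : Fin (n + 1) → G), h (fun j => g * x j) = h x) ∧
      ∀ x : Fin (n + 2) → G,
        f x = ∑ i : Fin (n + 2), (-1 : ℝ) ^ (i : ℕ) * h (x ∘ Fin.succAbove i)

/-- a simple group has no nontrivial real character -/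
theorem simple_char {G : Type} [Group G] [IsSimpleGroup G] (χ : G →* Multiplicative ℝ) :
    χ = 1 := by
  rcases Subgroup.Normal.eq_bot_or_eq_top (H := χ.ker) inferInstance with h | h
  · exfalso
    have hinj : Function.Injective χ := (MonoidHom.ker_eq_bot_iff χ).mp h
    have hcomm : ∀ a b : G, a * b = b * a := by
      intro a b
      apply hinj
      rw [map_mul, map_mul, mul_comm]
    obtain ⟨g, hg⟩ := exists_ne (1 : G)
    let Z : Subgroup G := Subgroup.zpowers (g ^ 2)
    have hZ : Z.Normal := ⟨by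
      intro a ha b
      rw [hcomm b a, mul_assoc, mul_inv_cancel, mul_one]
      exact ha⟩
    have hlog : ∀ k : ℤ, Multiplicative.toAdd (χ (g ^ k)) = k * Multiplicative.toAdd (χ g) := by
      intro k
      rw [map_zpow, toAdd_zpow]
      simp
    have hχg : Multiplicative.toAdd (χ g) ≠ 0 := by
      intro h0
      apply hg
      apply hinj
      rw [map_one]
      exact Multiplicative.toAdd.injective h0
    rcases hZ.eq_bot_or_eq_top with h1 | h1
    · have h2 : g ^ 2 = 1 := by
        have : g ^ 2 ∈ Z := Subgroup.mem_zpowers _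
        rw [h1] at this
        exact Subgroup.mem_bot.mp this
      have h3 := hlog 2
      have h4 : g ^ (2 : ℤ) = 1 := by exact_mod_cast h2
      rw [h4, map_one] at h3
      simp only [toAdd_one] at h3
      push_cast at h3
      apply hχg
      linarith
    · have h2 : g ∈ Z := by rw [h1]; trivial
      obtain ⟨k, hk⟩ := Subgroup.mem_zpowers_iff.mp h2
      have h3 : g ^ (2 * k) = g := by
        rw [zpow_mul]
        exact_mod_cast hk
      have h4 := hlog (2 * k)
      rw [h3] at h4
      push_cast at h4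
      have h5 : (2 * (k : ℝ) - 1) * Multiplicative.toAdd (χ g) = 0 := by linarith
      rcases mul_eq_zero.mp h5 with h6 | h6
      · have h7 : (2 * k - 1 : ℤ) = 0 := by exact_mod_cast h6
        omega
      · exact hχg h6
  · exact (MonoidHom.ker_eq_top_iff).mp h

/-- an unbounded orbit map of an action commuting with a translation gives a nonzero class in
second bounded cohomology -/
theorem not_vanish {G : Type} [Group G] (hchar : ∀ χ : G →* Multiplicative ℝ, χ = 1)
    (N : ℤ) (σ : G →* (ℝ ≃o ℝ)) (hN : 0 < N) (hper : ∀ g x, σ g (x + N) = σ g x + N)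
    (hfix : ∀ x, ∃ g, σ g x ≠ x) : ¬ BddVanish G 1 := by
  intro hv
  have hq := Helper13.A5.quasi σ N hN hper
  let f : (Fin 3 → G) → ℝ := fun x =>
    σ ((x 0)⁻¹ * x 1) 0 + σ ((x 1)⁻¹ * x 2) 0 - σ ((x 0)⁻¹ * x 2) 0
  obtain ⟨h, ⟨C, hC⟩, hinv, hcob⟩ := hv f
    ⟨N, by
      intro x
      have h1 := hq ((x 0)⁻¹ * x 1) ((x 1)⁻¹ * x 2)
      have e : (x 0)⁻¹ * x 1 * ((x 1)⁻¹ * x 2) = (x 0)⁻¹ * x 2 := by group
      rw [e] at h1
      rw [abs_le] at h1 ⊢
      simp only [f]
      constructor <;> linarith [h1.1, h1.2]⟩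
    (by
      intro g x
      simp only [f]
      have e : ∀ i j, (g * x i)⁻¹ * (g * x j) = (x i)⁻¹ * x j := by
        intro i j
        group
      simp only [e])
    (by
      intro x
      rw [Fin.sum_univ_four]
      simp only [f, Function.comp]
      have e10 : Fin.succAbove (0 : Fin 4) (0 : Fin 3) = 1 := rfl
      have e11 : Fin.succAbove (0 : Fin 4) (1 : Fin 3) = 2 := rfl
      have e12 : Fin.succAbove (0 : Fin 4) (2 : Fin 3) = 3 := rfl
      have e20 : Fin.succAbove (1 : Fin 4) (0 : Fin 3) = 0 := rfl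
      have e21 : Fin.succAbove (1 : Fin 4) (1 : Fin 3) = 2 := rfl
      have e22 : Fin.succAbove (1 : Fin 4) (2 : Fin 3) = 3 := rfl
      have e30 : Fin.succAbove (2 : Fin 4) (0 : Fin 3) = 0 := rfl
      have e31 : Fin.succAbove (2 : Fin 4) (1 : Fin 3) = 1 := rfl
      have e32 : Fin.succAbove (2 : Fin 4) (2 : Fin 3) = 3 := rfl
      have e40 : Fin.succAbove (3 : Fin 4) (0 : Fin 3) = 0 := rfl
      have e41 : Fin.succAbove (3 : Fin 4) (1 : Fin 3) = 1 := rfl
      have e42 : Fin.succAbove (3 : Fin 4) (2 : Fin 3) = 2 := rfl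
      rw [e10, e11, e12, e20, e21, e22, e30, e31, e32, e40, e41, e42]
      have c0 : ((0 : Fin 4) : ℕ) = 0 := rfl
      have c1 : ((1 : Fin 4) : ℕ) = 1 := rfl
      have c2 : ((2 : Fin 4) : ℕ) = 2 := rfl
      have c3 : ((3 : Fin 4) : ℕ) = 3 := rfl
      rw [c0, c1, c2, c3]
      ring)
  let η : G → ℝ := fun g => h ![1, g]
  have hη : ∀ a b : G, h ![a, b] = η (a⁻¹ * b) := by
    intro a b
    have h1 := hinv a⁻¹ ![a, b]
    rw [← h1]
    simp only [η]
    congr 1
    funext j
    fin_cases j <;> simp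
  have hadd : ∀ a b : G, σ a 0 + σ b 0 - σ (a * b) 0 = η b - η (a * b) + η a := by
    intro a b
    have h1 := hcob ![1, a, a * b]
    rw [Fin.sum_univ_three] at h1
    have e0 : (![1, a, a * b] : Fin 3 → G) ∘ Fin.succAbove 0 = ![a, a * b] := by
      funext j
      fin_cases j <;> rfl
    have e1 : (![1, a, a * b] : Fin 3 → G) ∘ Fin.succAbove 1 = ![1, a * b] := by
      funext j
      fin_cases j <;> rfl
    have e2 : (![1, a, a * b] : Fin 3 → G) ∘ Fin.succAbove 2 = ![1, a] := by
      funext j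
      fin_cases j <;> rfl
    have e3 : f ![1, a, a * b] = σ a 0 + σ b 0 - σ (a * b) 0 := by
      simp [f]
    rw [e3] at h1
    have h2 : ∑ i : Fin 3, (-1 : ℝ) ^ (i : ℕ) * h (![1, a, a * b] ∘ Fin.succAbove i)
        = h ![a, a * b] - h ![1, a * b] + h ![1, a] := by
      rw [Fin.sum_univ_three, e0, e1, e2]
      have c0 : ((0 : Fin 3) : ℕ) = 0 := rfl
      have c1 : ((1 : Fin 3) : ℕ) = 1 := rfl
      have c2 : ((2 : Fin 3) : ℕ) = 2 := rfl
      rw [c0, c1, c2]
      ring
    rw [← Fin.sum_univ_three (f := fun i : Fin 3 =>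
      (-1 : ℝ) ^ (i : ℕ) * h (![1, a, a * b] ∘ Fin.succAbove i)), h2, hη a (a * b)] at h1
    have e4 : a⁻¹ * (a * b) = b := by group
    rw [e4] at h1
    exact h1
  let χ : G →* Multiplicative ℝ := MonoidHom.mk' (fun g => Multiplicative.ofAdd (σ g 0 - η g)) (by
    intro a b
    rw [← ofAdd_add]
    congr 1
    linarith [hadd a b])
  have hχ := hchar χ
  have hzero : ∀ g, σ g 0 = η g := by
    intro g
    have h1 := DFunLike.congr_fun hχ g
    have h2 : Multiplicative.ofAdd (σ g 0 - η g) = Multiplicative.ofAdd 0 := h1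
    have h3 : σ g 0 - η g = 0 := Multiplicative.ofAdd.injective h2
    linarith
  obtain ⟨x, hx⟩ := Helper13.A5.bounded_fix σ C (by
    intro g
    rw [hzero]
    exact hC _)
  obtain ⟨g, hg⟩ := hfix x
  exact hg (hx g)

/-- A finitely presented group acting on the line by homeomorphisms that follow local rules along
one labelled line, without global fixed point, also acts on the line commuting with a translation,
without global fixed point; and if it is simple (or has no real character) its second bounded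
cohomology is nonzero, so it is not boundedly acyclic. -/
theorem result (A : Type) [Finite A] (ω : ℤ → A) (G : Type) [Group G] (hfp : FinPres G)
    (ρ : G →* (ℝ ≃o ℝ)) (hloc : ∀ g, FollowsLocalRule ω (ρ g)) (hfix : ∀ x, ∃ g, ρ g x ≠ x) :
    (∃ (N : ℤ) (σ : G →* (ℝ ≃o ℝ)), 0 < N ∧ (∀ g x, σ g (x + N) = σ g x + N) ∧
      ∀ x, ∃ g, σ g x ≠ x) ∧
    ((IsSimpleGroup G ∨ ∀ χ : G →* Multiplicative ℝ, χ = 1) → ¬ BddVanish G 1) := by
  obtain ⟨n, rels, ⟨e⟩⟩ := hfp
  obtain ⟨N, σ, hN, hper, hσ⟩ := Helper13.A5.exists_periodic ω G n rels e ρ hloc hfix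
  refine ⟨⟨N, σ, hN, hper, hσ⟩, ?_⟩
  intro h
  apply not_vanish _ N σ hN hper hσ
  rcases h with h | h
  · intro χ
    exact simple_char χ
  · exact h

end Pool.Agent.Results.MP_a5fa9a_al.LocalRules
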